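import Pool.Agent.Helper48.AED.Spec

open Finset Matrix

namespace Pool.Agent.Helper54.AED

open Pool.AED48

/-- the quadratic form on a spectral sum -/
lemma qf_exp {n : ℕ} {A : Matrix (Fin n) (Fin n) ℝ} {μ : Fin n → ℝ} {U : Fin n → Fin n → ℝ}
    (h : SD A μ U) (c : Fin n → ℝ) :
    qf A (fun i => ∑ a, c a * U a i) = ∑ a, (1 + μ a) * c a ^ 2 := by
  have h1 : ∀ c e : Fin n → ℝ, ∑ i, (∑ a, c a * U a i) * (∑ b, e b * U b i)
      = ∑ a, c a * e a := by
    intro c e
    have e1 : ∀ i, (∑ a, c a * U a i) * (∑ b, e b * U b i)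
        = ∑ a, ∑ b, c a * e b * (U a i * U b i) := by
      intro i
      rw [Finset.sum_mul_sum]
      refine Finset.sum_congr rfl fun a _ => Finset.sum_congr rfl fun b _ => by ring
    simp only [e1]
    rw [Finset.sum_comm]
    refine Finset.sum_congr rfl fun a _ => ?_
    rw [Finset.sum_comm]
    simp only [← Finset.mul_sum, h.orth, mul_ite, mul_one, mul_zero, Finset.sum_ite_eq,
      Finset.mem_univ, if_true]
  have h2 : ∀ i, ∑ j, A i j * (∑ a, c a * U a j) = ∑ a, (c a * μ a) * U a i := by
    intro i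
    have e1 : ∑ j, A i j * (∑ a, c a * U a j) = ∑ a, c a * ∑ j, A i j * U a j := by
      simp only [Finset.mul_sum]
      rw [Finset.sum_comm]
      refine Finset.sum_congr rfl fun a _ => Finset.sum_congr rfl fun k _ => by ring
    rw [e1]
    refine Finset.sum_congr rfl fun a _ => ?_
    rw [h.eig]
    ring
  have h3 : ∑ i, ∑ j, (∑ a, c a * U a i) * A i j * (∑ a, c a * U a j)
      = ∑ a, c a * (c a * μ a) := by
    rw [← h1 c (fun a => c a * μ a)]
    refine Finset.sum_congr rfl fun i _ => ?_
    rw [← h2 i, Finset.mul_sum]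
    refine Finset.sum_congr rfl fun j _ => by ring
  have h4 : ∑ i, (∑ a, c a * U a i) ^ 2 = ∑ a, c a * c a := by
    rw [← h1 c c]
    refine Finset.sum_congr rfl fun i _ => by ring
  unfold qf
  rw [h3, h4, ← Finset.sum_add_distrib]
  refine Finset.sum_congr rfl fun a _ => by ring

/-- the dimension count -/
lemma card_le {n d : ℕ} {A : Matrix (Fin n) (Fin n) ℝ} (hG : Good n d A) {I : Type} [Fintype I]
    (E : (I → ℝ) →ₗ[ℝ] (Fin n → ℝ))
    (hE : ∀ c, ∑ i, E c i = 0 → qf A (E c) = 0 → c = 0) : Fintype.card I ≤ d + 1 := by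
  obtain ⟨L, hL⟩ := hG.lin
  let S : (Fin n → ℝ) →ₗ[ℝ] ℝ := ∑ i, LinearMap.proj i
  have hS : ∀ v : Fin n → ℝ, S v = ∑ i, v i := fun v => by
    simp [S, LinearMap.sum_apply]
  let T : (I → ℝ) →ₗ[ℝ] ℝ × (Fin d → ℝ) := (S.prod L).comp E
  have hT : Function.Injective T := by
    rw [← LinearMap.ker_eq_bot, LinearMap.ker_eq_bot']
    intro c hc
    have h1 : S (E c) = 0 := congrArg Prod.fst hc
    have h2 : L (E c) = 0 := congrArg Prod.snd hc
    rw [hS] at h1
    refine hE c h1 ?_
    rw [hL _ h1, h2]
    simp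
  have := LinearMap.finrank_le_finrank_of_injective hT
  simpa [add_comm] using this

theorem POS.main : S_POS := by
  intro n d A μ U hG hSD
  classical
  let I := {a : Fin n // -1 < μ a}
  let E0 : (I → ℝ) →ₗ[ℝ] (Fin n → ℝ) :=
    { toFun := fun c a => if h : -1 < μ a then c ⟨a, h⟩ else 0
      map_add' := by
        intro c e; funext a
        by_cases h : -1 < μ a <;> simp [h]
      map_smul' := by
        intro r c; funext a
        by_cases h : -1 < μ a <;> simp [h] }
  let E1 : (Fin n → ℝ) →ₗ[ℝ] (Fin n → ℝ) :=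
    { toFun := fun c i => ∑ a, c a * U a i
      map_add' := by
        intro c e; funext i
        simp only [Pi.add_apply, add_mul, Finset.sum_add_distrib]
      map_smul' := by
        intro r c; funext i
        simp only [Pi.smul_apply, smul_eq_mul, RingHom.id_apply, Finset.mul_sum, mul_assoc] }
  have h := card_le hG (I := I) (E1.comp E0) (by
    intro c _ hq
    have h1 : qf A (fun i => ∑ a, E0 c a * U a i) = 0 := hq
    rw [qf_exp hSD] at h1
    have h2 : ∀ a ∈ (Finset.univ : Finset (Fin n)), 0 ≤ (1 + μ a) * E0 c a ^ 2 := by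
      intro a _
      by_cases ha : -1 < μ a
      · exact mul_nonneg (by linarith) (sq_nonneg _)
      · have : E0 c a = 0 := dif_neg ha
        rw [this]; simp
    have h3 := (Finset.sum_eq_zero_iff_of_nonneg h2).1 h1
    funext a
    have h4 := h3 a.1 (Finset.mem_univ _)
    have h5 : E0 c a.1 = c a := dif_pos a.2
    rw [h5] at h4
    have h6 : (1 + μ a.1) ≠ 0 := by have := a.2; linarith
    have h7 : c a ^ 2 = 0 := by
      rcases mul_eq_zero.1 h4 with h | h
      · exact absurd h h6
      · exact h
    simpa using h7)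
  rw [Fintype.card_subtype] at h
  exact h

theorem SIM.main : S_SIM := by
  intro n d A hG X hX
  classical
  let E : (X → ℝ) →ₗ[ℝ] (Fin n → ℝ) :=
    { toFun := fun c a => if h : a ∈ X then c ⟨a, h⟩ else 0
      map_add' := by
        intro c e; funext a
        by_cases h : a ∈ X <;> simp [h]
      map_smul' := by
        intro r c; funext a
        by_cases h : a ∈ X <;> simp [h] }
  have h := card_le hG (I := X) E (by
    intro c _ hq
    have h1 : ∑ i, ∑ j, E c i * A i j * E c j = 0 := by
      refine Finset.sum_eq_zero fun i _ => Finset.sum_eq_zero fun j _ => ?_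
      by_cases hi : i ∈ X
      · by_cases hj : j ∈ X
        · rw [hX i hi j hj]; ring
        · have : E c j = 0 := dif_neg hj
          rw [this]; ring
      · have : E c i = 0 := dif_neg hi
        rw [this]; ring
    unfold qf at hq
    rw [h1, add_zero] at hq
    have h3 := (Finset.sum_eq_zero_iff_of_nonneg (fun i _ => sq_nonneg (E c i))).1 hq
    funext a
    have h4 := h3 a.1 (Finset.mem_univ _)
    have h5 : E c a.1 = c a := dif_pos a.2
    rw [h5] at h4
    simpa using h4)
  rwa [Fintype.card_coe] at h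

end Pool.Agent.Helper54.AED
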