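import Pool.Agent.Helper48.AED.Spec

open Finset Matrix

namespace Pool.Agent.Helper54.AED.SPE

open Pool.AED48

theorem main : S_SPE := by
  intro n A hs
  have hA : A.IsHermitian := by
    ext i j
    simp [Matrix.conjTranspose_apply, hs j i]
  set b := hA.eigenvectorBasis with hb
  set μ : Fin n → ℝ := hA.eigenvalues with hμ
  set U : Fin n → Fin n → ℝ := fun a i => b a i with hU
  have eig : ∀ a i, ∑ j, A i j * U a j = μ a * U a i := by
    intro a i
    have h := congrFun (hA.mulVec_eigenvectorBasis a) i
    simpa [Matrix.mulVec, dotProduct, hU, hμ, hb] using h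
  have orth : ∀ a c, ∑ i, U a i * U c i = if a = c then 1 else 0 := by
    intro a c
    have h := orthonormal_iff_ite.1 b.orthonormal a c
    rw [← h]
    simp only [PiLp.inner_apply, hU]
    refine Finset.sum_congr rfl fun i _ => ?_
    simp [mul_comm]
  set M : Matrix (Fin n) (Fin n) ℝ := Matrix.of fun a i => U a i with hM
  have h1 : M * Mᵀ = 1 := by
    ext a c
    simp only [Matrix.mul_apply, Matrix.transpose_apply, hM, Matrix.of_apply, Matrix.one_apply]
    exact orth a c
  have h2 : Mᵀ * M = 1 := mul_eq_one_comm.1 h1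
  have orth' : ∀ i j, ∑ a, U a i * U a j = if i = j then 1 else 0 := by
    intro i j
    have h := congrFun (congrFun h2 i) j
    simpa only [Matrix.mul_apply, Matrix.transpose_apply, hM, Matrix.of_apply,
      Matrix.one_apply] using h
  -- application of A to a spectral sum
  have app : ∀ (ν : Fin n → ℝ) (i j : Fin n),
      ∑ k, A i k * ∑ a, ν a * U a k * U a j = ∑ a, (ν a * μ a) * U a i * U a j := by
    intro ν i j
    have e1 : ∑ k, A i k * ∑ a, ν a * U a k * U a j
        = ∑ a, ν a * U a j * ∑ k, A i k * U a k := by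
      simp only [Finset.mul_sum]
      rw [Finset.sum_comm]
      refine Finset.sum_congr rfl fun a _ => Finset.sum_congr rfl fun k _ => ?_
      ring
    rw [e1]
    refine Finset.sum_congr rfl fun a _ => ?_
    rw [eig]
    ring
  have eq : ∀ i j, A i j = ∑ a, μ a * U a i * U a j := by
    intro i j
    have e1 : A i j = ∑ k, A i k * ∑ a, (1 : ℝ) * U a k * U a j := by
      simp only [one_mul, orth', mul_ite, mul_one, mul_zero, Finset.sum_ite_eq',
        Finset.mem_univ, if_true]
    rw [e1, app]
    simp only [one_mul]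
  have sq : ∀ i j, ∑ k, A i k * A k j = ∑ a, μ a ^ 2 * U a i * U a j := by
    intro i j
    have e1 : ∑ k, A i k * A k j = ∑ k, A i k * ∑ a, μ a * U a k * U a j :=
      Finset.sum_congr rfl fun k _ => by rw [← eq k j]
    rw [e1, app]
    refine Finset.sum_congr rfl fun a _ => by ring
  have cube : ∀ i j, ∑ k, ∑ l, A i k * A k l * A l j = ∑ a, μ a ^ 3 * U a i * U a j := by
    intro i j
    have e1 : ∑ k, ∑ l, A i k * A k l * A l j
        = ∑ k, A i k * ∑ a, μ a ^ 2 * U a k * U a j := by
      refine Finset.sum_congr rfl fun k _ => ?_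
      rw [← sq k j, Finset.mul_sum]
      refine Finset.sum_congr rfl fun l _ => by ring
    rw [e1, app]
    refine Finset.sum_congr rfl fun a _ => by ring
  exact ⟨μ, U, ⟨orth, orth', eq, eig, sq, cube⟩⟩

end Pool.Agent.Helper54.AED.SPE
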